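import Pool.Agent.K6.H5.JW.Fin
import Pool.Agent.Y981.L2.Expo
import Pool.Agent.Y981.L2.Area5

/-!
Polygons that are both wide and tall.
-/

set_option autoImplicit false

namespace Pool.Agent.K6.H5.JW

open Pool.Agent.TH795.EP Pool.Agent.TH795.EP2 Pool.Agent.TH795.SE2 Pool.Agent.TH262.SawL H981 Finset
open Pool.Agent.Y981.L2

theorem Lam_sw (h : ℝ × ℝ) : Lam (h.2, h.1) = Lam h := by
  have h1 := Lam_tendsto (h.2, h.1)
  simp only [Z_sw] at h1
  have h2 := tendsto_nhds_unique h1 (Lam_tendsto h)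
  linarith

theorem rate_sw (v : ℝ × ℝ) : Rate (v.2, v.1) = Rate v := by
  unfold Rate
  apply Equiv.iSup_congr (Equiv.prodComm ℝ ℝ)
  intro h
  have := Lam_sw h
  simp only [Equiv.prodComm_apply, Prod.swap]
  rw [this]
  ring

theorem rate_abs (v : ℝ × ℝ) (hv : v ∈ Dia) : Rate (|v.1|, |v.2|) = Rate v := by
  have hd : (|v.1|, |v.2|) ∈ Dia := by
    change |(|v.1|)| + |(|v.2|)| ≤ 1
    rw [abs_abs, abs_abs]
    exact hv
  have hsg : ∀ h : ℝ × ℝ, ∀ s t : ℝ, (s = 1 ∨ s = -1) → (t = 1 ∨ t = -1) →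
      Lam (s * h.1, t * h.2) = Lam h := by
    intro h s t hs ht
    have e1 : Lam (s * h.1, t * h.2) = Lam (h.1, t * h.2) := by
      rcases hs with rfl | rfl
      · rw [one_mul]
      · have := Lam_sg (h.1, t * h.2)
        simp only at this
        rw [neg_one_mul, this]
    rw [e1]
    rcases ht with rfl | rfl
    · rw [one_mul]
    · have := Lam_ng h
      rw [neg_one_mul, this]
  obtain ⟨s, hs, hs2⟩ : ∃ s : ℝ, (s = 1 ∨ s = -1) ∧ |v.1| = s * v.1 := by
    rcases abs_cases v.1 with ⟨h1, _⟩ | ⟨h1, _⟩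
    · exact ⟨1, Or.inl rfl, by rw [h1]; ring⟩
    · exact ⟨-1, Or.inr rfl, by rw [h1]; ring⟩
  obtain ⟨t, ht, ht2⟩ : ∃ t : ℝ, (t = 1 ∨ t = -1) ∧ |v.2| = t * v.2 := by
    rcases abs_cases v.2 with ⟨h1, _⟩ | ⟨h1, _⟩
    · exact ⟨1, Or.inl rfl, by rw [h1]; ring⟩
    · exact ⟨-1, Or.inr rfl, by rw [h1]; ring⟩
  have hss : s * s = 1 := by rcases hs with rfl | rfl <;> norm_num
  have htt : t * t = 1 := by rcases ht with rfl | rfl <;> norm_num
  apply le_antisymm
  · apply ciSup_le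
    intro h
    have h5 := le_rate hv (s * h.1, t * h.2)
    rw [hsg h s t hs ht] at h5
    simp only at h5 ⊢
    rw [hs2, ht2]
    linarith
  · apply ciSup_le
    intro h
    have h5 := le_rate hd (s * h.1, t * h.2)
    rw [hsg h s t hs ht] at h5
    simp only at h5 ⊢
    have e1 : s * h.1 * |v.1| = h.1 * v.1 := by
      rw [hs2]
      calc s * h.1 * (s * v.1) = (s * s) * (h.1 * v.1) := by ring
        _ = _ := by rw [hss, one_mul]
    have e2 : t * h.2 * |v.2| = h.2 * v.2 := by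
      rw [ht2]
      calc t * h.2 * (t * v.2) = (t * t) * (h.2 * v.2) := by ring
        _ = _ := by rw [htt, one_mul]
    rw [e1, e2] at h5
    exact h5

/-- the diagonal direction is cheaper than the axis with the same sum of coordinates -/
theorem rate_diag {v : ℝ} (h0 : 0 ≤ v) (h1 : 2 * v ≤ 1) : Rate (v, v) ≤ Rate (2 * v, 0) := by
  have hd1 : ((2 * v, 0) : ℝ × ℝ) ∈ Dia := by
    change |2 * v| + |(0 : ℝ)| ≤ 1
    rw [abs_zero, abs_of_nonneg (by linarith)]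
    linarith
  have hd2 : ((0, 2 * v) : ℝ × ℝ) ∈ Dia := by
    change |(0 : ℝ)| + |2 * v| ≤ 1
    rw [abs_zero, abs_of_nonneg (by linarith)]
    linarith
  have h2 := convex_rate.2 hd1 hd2 (by norm_num : (0 : ℝ) ≤ 1 / 2)
    (by norm_num : (0 : ℝ) ≤ 1 / 2) (by norm_num)
  have e : (1 / 2 : ℝ) • ((2 * v, 0) : ℝ × ℝ) + (1 / 2 : ℝ) • ((0, 2 * v) : ℝ × ℝ) = (v, v) := by
    ext <;> simp
  rw [e] at h2
  have h3 : Rate (0, 2 * v) = Rate (2 * v, 0) := rate_sw (2 * v, 0)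
  rw [h3] at h2
  simp only [smul_eq_mul] at h2
  linarith

end Pool.Agent.K6.H5.JW
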