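import Pool.Agent.Y981.L2.Area3

/-!
Words which close up with one step and have at least given horizontal and vertical extents;
lengthening them.
-/

set_option autoImplicit false

namespace Pool.Agent.K6.H5.JW

open Pool.Agent.TH795.EP Pool.Agent.TH795.EP2 Pool.Agent.TH795.SE2 Pool.Agent.TH262.SawL H981 Finset
open Pool.Agent.Y981.L2

/-- the path extends at least `k` horizontally and `l` vertically -/
def Ext (k l : ℤ) (w : List St) : Prop :=
  (∃ i j, k ≤ (path w i).1 - (path w j).1) ∧ ∃ i j, l ≤ (path w i).2 - (path w j).2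

/-- words that close up with one step, with given extents -/
def Jw (k l : ℤ) (V : List St) : Prop := Saw V ∧ |dx V| + |dy V| = 1 ∧ Ext k l V

noncomputable def jc (k l : ℤ) (m : ℕ) : ℕ := (fs (Jw k l) m).card

noncomputable def jb (k l : ℤ) (m : ℕ) : ℕ := (fs (fun V => Jw k l V ∧ Bot V) m).card

theorem path_ng' (w : List St) (i : ℕ) : path (ng w) i = ((path w i).1, -(path w i).2) := by
  have h1 : (ng w).take i = ng (w.take i) := by
    unfold ng
    rw [← List.map_take]
  unfold path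
  rw [h1, dx_ng, dy_ng]

theorem path_sw' (w : List St) (i : ℕ) : path (sw w) i = ((path w i).2, (path w i).1) := by
  have h1 : (sw w).take i = sw (w.take i) := by
    unfold sw
    rw [← List.map_take]
  unfold path
  rw [h1, dx_sw, dy_sw]

theorem Ext.ng {k l : ℤ} {w : List St} (h : Ext k l w) : Ext k l (ng w) := by
  obtain ⟨⟨i, j, h1⟩, i', j', h2⟩ := h
  refine ⟨⟨i, j, ?_⟩, j', i', ?_⟩
  · rw [path_ng', path_ng']; exact h1
  · rw [path_ng', path_ng']
    simp only
    omega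

theorem Ext.sw {k l : ℤ} {w : List St} (h : Ext k l w) : Ext l k (sw w) := by
  obtain ⟨⟨i, j, h1⟩, i', j', h2⟩ := h
  refine ⟨⟨i', j', ?_⟩, i, j, ?_⟩
  · rw [path_sw', path_sw']; exact h2
  · rw [path_sw', path_sw']; exact h1

theorem Jw.ng {k l : ℤ} {w : List St} (h : Jw k l w) : Jw k l (ng w) := by
  obtain ⟨h1, h2, h3⟩ := h
  refine ⟨h1.ng, ?_, h3.ng⟩
  rw [dx_ng, dy_ng, abs_neg]
  exact h2

theorem Jw.sw {k l : ℤ} {w : List St} (h : Jw k l w) : Jw l k (sw w) := by
  obtain ⟨h1, h2, h3⟩ := h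
  refine ⟨saw_sw h1, ?_, h3.sw⟩
  rw [dx_sw, dy_sw, add_comm]
  exact h2

theorem vertex_ins {w : List St} {i : ℕ} (hi : i < w.length) {t' : List St}
    (hx : dx t' = (w[i]).x) (hy : dy t' = (w[i]).y) (j : ℕ) :
    ∃ j', path (ins w i t') j' = path w j := by
  rcases le_or_gt j i with h | h
  · exact ⟨j, path_ins_left hi t' h⟩
  · obtain ⟨l, rfl⟩ : ∃ l, j = i + 1 + l := ⟨j - (i + 1), by omega⟩
    exact ⟨_, path_ins_right hi hx hy l⟩

theorem Ext.ins {k l : ℤ} {w : List St} (h : Ext k l w) {i : ℕ} (hi : i < w.length)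
    {t' : List St} (hx : dx t' = (w[i]).x) (hy : dy t' = (w[i]).y) : Ext k l (ins w i t') := by
  obtain ⟨⟨i1, j1, h1⟩, i2, j2, h2⟩ := h
  obtain ⟨a1, ha1⟩ := vertex_ins hi hx hy i1
  obtain ⟨b1, hb1⟩ := vertex_ins hi hx hy j1
  obtain ⟨a2, ha2⟩ := vertex_ins hi hx hy i2
  obtain ⟨b2, hb2⟩ := vertex_ins hi hx hy j2
  exact ⟨⟨a1, b1, by rw [ha1, hb1]; exact h1⟩, a2, b2, by rw [ha2, hb2]; exact h2⟩

theorem jb_mul_ar (k l : ℤ) (m L : ℕ) : jb k l m * ar L ≤ m * jc k l (m + L + 1) := by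
  classical
  unfold jb jc ar
  have e : m * (fs (Jw k l) (m + L + 1)).card = (range m ×ˢ fs (Jw k l) (m + L + 1)).card := by
    rw [Finset.card_product, Finset.card_range]
  rw [← Finset.card_product, e]
  apply card_le_of_decode (fun q => (q.2.take q.1 ++
    ((if dx ((q.2.drop (q.1 + 1)).take L) = 1 then St.E else St.W) ::
      q.2.drop (q.1 + 1 + L + 1)),
    (if dx ((q.2.drop (q.1 + 1)).take L) = 1 then (q.2.drop (q.1 + 1)).take L else
      sg ((q.2.drop (q.1 + 1)).take L))))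
  rintro ⟨w, t⟩ h
  rw [Finset.mem_product, mem_fs, mem_fs] at h
  obtain ⟨⟨⟨⟨hw, hadj, henc⟩, hbot⟩, hwl⟩, ⟨ht, htx, hty, htn⟩, htl⟩ := h
  simp only at hw hadj hbot henc hwl ht htx hty htn htl
  obtain ⟨i, hi, hs, hmin⟩ := hbot
  have hx : dx (tw w[i] t) = (w[i]).x := dx_tw hs htx
  have hy : dy (tw w[i] t) = (w[i]).y := by
    rw [dy_tw, hty]
    rcases hs with h | h <;> rw [h] <;> rfl
  have hlt : (tw w[i] t).length = L := by rw [length_tw, htl]
  have hd := disp_ins hi hx hy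
  have hneg : ∀ k, (path (tw w[i] t) k).2 ≤ 0 := fun k => by rw [path_tw_snd]; exact htn k
  refine ⟨(i, ins w i (tw w[i] t)), ?_, ?_⟩
  · rw [Finset.mem_product, mem_fs, Finset.mem_range]
    refine ⟨by omega, ⟨saw_ins hw hi (saw_tw ht) hx hy hmin hneg, ?_, ?_⟩, ?_⟩
    · rw [hd.1, hd.2]; exact hadj
    · exact henc.ins hi hx hy
    · simp only
      rw [length_ins hi, hlt, hwl]
  · simp only
    have hlen : (w.take i).length = i := by rw [List.length_take]; omega
    have g1 : (ins w i (tw w[i] t)).take i = w.take i := by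
      unfold TH795.EP.ins
      have := List.take_left (l₁ := w.take i)
        (l₂ := St.S :: (tw w[i] t ++ (St.N :: w.drop (i + 1))))
      rwa [hlen] at this
    have g2 : (ins w i (tw w[i] t)).drop (i + 1) = tw w[i] t ++ (St.N :: w.drop (i + 1)) := by
      unfold TH795.EP.ins
      have := List.drop_left (l₁ := w.take i)
        (l₂ := St.S :: (tw w[i] t ++ (St.N :: w.drop (i + 1))))
      rw [hlen] at this
      rw [← List.drop_drop, this, List.drop_succ_cons, List.drop_zero]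
    have g3 : ((ins w i (tw w[i] t)).drop (i + 1)).take L = tw w[i] t := by
      rw [g2]
      have := List.take_left (l₁ := tw w[i] t) (l₂ := St.N :: w.drop (i + 1))
      rwa [hlt] at this
    have g4 : (ins w i (tw w[i] t)).drop (i + 1 + L + 1) = w.drop (i + 1) := by
      have := List.drop_left (l₁ := tw w[i] t) (l₂ := St.N :: w.drop (i + 1))
      rw [hlt] at this
      rw [show i + 1 + L + 1 = (i + 1) + L + 1 by ring, ← List.drop_drop, ← List.drop_drop, g2,
        this, List.drop_succ_cons, List.drop_zero]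
    rw [g1, g3, g4, hx]
    have hw2 : w.take i ++ (w[i] :: w.drop (i + 1)) = w := by
      rw [← List.drop_eq_getElem_cons hi, List.take_append_drop]
    rcases hs with h | h
    · rw [h, St.x_E, if_pos rfl, if_pos rfl]
      rw [h] at hw2
      simp only [hw2, tw, if_true]
    · rw [h, St.x_W, if_neg (by norm_num), if_neg (by norm_num)]
      rw [h] at hw2
      have : tw St.W t = sg t := by simp [tw]
      rw [hw2, this, sg_sg]

theorem jc_sw (k l : ℤ) (m : ℕ) : jc k l m = jc l k m := by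
  have key : ∀ k l : ℤ, jc k l m ≤ jc l k m := by
    intro k l
    apply card_le_of_decode sw
    intro w hw
    rw [mem_fs] at hw
    refine ⟨sw w, ?_, sw_sw w⟩
    rw [mem_fs, length_sw]
    exact ⟨hw.1.sw, hw.2⟩
  exact le_antisymm (key k l) (key l k)

theorem jc_le_jb {m : ℕ} (hm : 1 ≤ m) (k l : ℤ) :
    jc k l m ≤ jb k l m + (jb k l m + (jb l k m + jb l k m)) := by
  classical
  unfold jc jb
  rw [← Finset.card_disjSum, ← Finset.card_disjSum, ← Finset.card_disjSum]
  apply card_le_of_decode (fun q => Sum.elim id (Sum.elim ng (Sum.elim sw (fun w => sw (ng w)))) q)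
  intro w hw
  rw [mem_fs] at hw
  obtain ⟨hw1, hwl⟩ := hw
  rcases bot_or hw1.1 (by omega) with h | h | h | h
  · refine ⟨Sum.inl w, ?_, rfl⟩
    rw [Finset.inl_mem_disjSum, mem_fs]
    exact ⟨⟨hw1, h⟩, hwl⟩
  · refine ⟨Sum.inr (Sum.inl (ng w)), ?_, by simp⟩
    rw [Finset.inr_mem_disjSum, Finset.inl_mem_disjSum, mem_fs]
    exact ⟨⟨hw1.ng, h⟩, by rw [length_ng, hwl]⟩
  · refine ⟨Sum.inr (Sum.inr (Sum.inl (sw w))), ?_, by simp [sw_sw]⟩
    rw [Finset.inr_mem_disjSum, Finset.inr_mem_disjSum, Finset.inl_mem_disjSum, mem_fs]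
    exact ⟨⟨hw1.sw, h⟩, by rw [length_sw, hwl]⟩
  · refine ⟨Sum.inr (Sum.inr (Sum.inr (ng (sw w)))), ?_, by simp [sw_sw]⟩
    rw [Finset.inr_mem_disjSum, Finset.inr_mem_disjSum, Finset.inr_mem_disjSum, mem_fs]
    exact ⟨⟨hw1.sw.ng, h⟩, by rw [length_ng, length_sw, hwl]⟩

/-- **Insertion of a polygon.** -/
theorem jc_mul_ar {m : ℕ} (hm : 1 ≤ m) (L : ℕ) (k l : ℤ) :
    jc k l m * ar L ≤ 4 * m * jc k l (m + L + 1) := by
  have h1 := jc_le_jb hm k l
  have h2 := jb_mul_ar k l m L
  have h3 := jb_mul_ar l k m L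
  rw [← jc_sw k l] at h3
  calc jc k l m * ar L ≤ (jb k l m + (jb k l m + (jb l k m + jb l k m))) * ar L :=
        Nat.mul_le_mul_right _ h1
    _ = jb k l m * ar L + (jb k l m * ar L + (jb l k m * ar L + jb l k m * ar L)) := by ring
    _ ≤ m * jc k l (m + L + 1) + (m * jc k l (m + L + 1) + (m * jc k l (m + L + 1) +
        m * jc k l (m + L + 1))) := by omega
    _ = _ := by ring

/-- lengthening by an even number of steps -/
theorem jc_lengthen {n : ℕ} (hn : 2 ≤ n) {K : ℝ} (hK0 : 0 ≤ K)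
    (hlow : ∀ j : ℕ, 2 ≤ j → j ≤ n → mu ^ (2 * j) * q n (-K) ≤ ar (2 * j - 1))
    {m j : ℕ} (hm : 1 ≤ m) (hmn : m + 2 * j ≤ n) (x y : ℤ) :
    (jc x y m : ℝ) * mu ^ (2 * j) ≤ q n (K + 21) * jc x y (m + 2 * j) := by
  have hmu := mu_pos
  have hn0 : (2 : ℝ) ≤ n := by exact_mod_cast hn
  have hmn' : (m : ℝ) ≤ n := by exact_mod_cast (by omega : m ≤ n)
  rcases Nat.eq_zero_or_pos j with h0 | h0
  · subst h0
    simp only [mul_zero, pow_zero, mul_one, add_zero]
    have h1 := one_le_q hn (by linarith : (0 : ℝ) ≤ K + 21)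
    have h2 : (0 : ℝ) ≤ jc x y m := Nat.cast_nonneg _
    nlinarith
  · rcases Nat.lt_or_ge j 2 with h1 | h1
    · obtain rfl : j = 1 := by omega
      have h2 := jc_mul_ar hm 1 x y
      have h3 := one_le_ar (j := 1) le_rfl
      norm_num at h3
      have h4 : (jc x y m : ℝ) ≤ 4 * m * jc x y (m + 2) := by
        have : jc x y m ≤ 4 * m * jc x y (m + 2) := by
          calc jc x y m = jc x y m * 1 := (mul_one _).symm
            _ ≤ jc x y m * ar 1 := Nat.mul_le_mul_left _ h3
            _ ≤ _ := h2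
        exact_mod_cast this
      have h5 : mu ^ 2 ≤ 16 := by
        have := mu_le_four
        nlinarith
      have h6 : (n : ℝ) ^ 7 ≤ q n (K + 21) := by
        have h7 := pow_le_q hn 7
        norm_num at h7
        exact h7.trans (q_mono hn (by linarith))
      have hA : (0 : ℝ) ≤ jc x y (m + 2) := Nat.cast_nonneg _
      have h8 : (64 : ℝ) * m ≤ (n : ℝ) ^ 7 := by
        have h9 : (64 : ℝ) ≤ (n : ℝ) ^ 6 := by
          calc (64 : ℝ) = 2 ^ 6 := by norm_num
            _ ≤ (n : ℝ) ^ 6 := pow_le_pow_left₀ (by norm_num) hn0 6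
        calc (64 : ℝ) * m ≤ (n : ℝ) ^ 6 * n := mul_le_mul h9 hmn' (Nat.cast_nonneg _) (by positivity)
          _ = (n : ℝ) ^ 7 := by ring
      calc (jc x y m : ℝ) * mu ^ (2 * 1) ≤ (4 * m * jc x y (m + 2)) * 16 := by
            rw [mul_one]
            exact mul_le_mul h4 h5 (by positivity) (by positivity)
        _ = (64 * m) * jc x y (m + 2) := by ring
        _ ≤ q n (K + 21) * jc x y (m + 2) := mul_le_mul_of_nonneg_right (h8.trans h6) hA
        _ = _ := by norm_num
    · have h2 := hlow j h1 (by omega)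
      have h3 := jc_mul_ar hm (2 * j - 1) x y
      rw [show m + (2 * j - 1) + 1 = m + 2 * j by omega] at h3
      have h4 : (jc x y m : ℝ) * ar (2 * j - 1) ≤ 4 * m * jc x y (m + 2 * j) := by
        exact_mod_cast h3
      have hA : (0 : ℝ) ≤ jc x y (m + 2 * j) := Nat.cast_nonneg _
      have hA' : (0 : ℝ) ≤ jc x y m := Nat.cast_nonneg _
      have hq := q_pos n K
      have h5 : (jc x y m : ℝ) * (mu ^ (2 * j) * q n (-K)) ≤ 4 * m * jc x y (m + 2 * j) :=
        (mul_le_mul_of_nonneg_left h2 hA').trans h4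
      have h6 : (4 : ℝ) * m ≤ q n 9 := by
        have h7 := pow_le_q hn 3
        norm_num at h7
        refine le_trans ?_ h7
        have h9 : (4 : ℝ) ≤ (n : ℝ) ^ 2 := by nlinarith
        calc (4 : ℝ) * m ≤ (n : ℝ) ^ 2 * n := mul_le_mul h9 hmn' (Nat.cast_nonneg _) (by positivity)
          _ = (n : ℝ) ^ 3 := by ring
      calc (jc x y m : ℝ) * mu ^ (2 * j)
          = ((jc x y m : ℝ) * (mu ^ (2 * j) * q n (-K))) * q n K := by
            rw [show (jc x y m : ℝ) * (mu ^ (2 * j) * q n (-K)) * q n K =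
              (jc x y m : ℝ) * mu ^ (2 * j) * (q n K * q n (-K)) by ring, q_cancel, mul_one]
        _ ≤ (4 * m * jc x y (m + 2 * j)) * q n K := mul_le_mul_of_nonneg_right h5 hq.le
        _ ≤ (q n 9 * jc x y (m + 2 * j)) * q n K := by gcongr
        _ = (q n K * q n 9) * jc x y (m + 2 * j) := by ring
        _ = q n (K + 9) * jc x y (m + 2 * j) := by rw [q_mul]
        _ ≤ _ := mul_le_mul_of_nonneg_right (q_mono hn (by linarith)) hA

end Pool.Agent.K6.H5.JW
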