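import Pool.Agent.K6.H5.JW.Up
import Pool.Agent.Y981.L2.Ldp2

/-!
The upper bound: at most `exp (O (log n)^2) a (2 n) (2 k) (2 l)` polygons with `2 n` steps have
extents at least `k` and `l`.
-/

set_option autoImplicit false

namespace Pool.Agent.K6.H5.JW

open Pool.Agent.TH795.EP Pool.Agent.TH795.EP2 Pool.Agent.TH795.SE2 Pool.Agent.TH262.SawL H981 Finset
open Pool.Agent.Y981.L2

theorem four_sort (a b c d : ℕ) : ∃ t1 t2 t3 t4 : ℕ, t1 ≤ t2 ∧ t2 ≤ t3 ∧ t3 ≤ t4 ∧
    ∀ x, x ∈ [a, b, c, d] ↔ x ∈ [t1, t2, t3, t4] := by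
  have hp := List.perm_insertionSort (· ≤ ·) [a, b, c, d]
  have hs := List.pairwise_insertionSort (· ≤ ·) [a, b, c, d]
  have hl := hp.length_eq
  obtain ⟨L, hL⟩ : ∃ L, L = [a, b, c, d].insertionSort (· ≤ ·) := ⟨_, rfl⟩
  rw [← hL] at hp hs hl
  match L, hl with
  | [t1, t2, t3, t4], _ =>
    simp only [List.pairwise_cons, List.mem_cons, List.not_mem_nil, or_false] at hs
    refine ⟨t1, t2, t3, t4, hs.1 t2 (by simp), hs.2.1 t3 (by simp), hs.2.2.1 t4 (by simp), ?_⟩
    intro x
    exact hp.mem_iff.symm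

/-- the total variation is at least twice the extent, up to the distance of the end points -/
theorem variation (X : ℕ → ℤ) (N t1 t2 t3 t4 i j : ℕ) (hi : i ∈ [t1, t2, t3, t4])
    (hj : j ∈ [t1, t2, t3, t4]) (h0 : X 0 = 0) {k : ℤ} (hk : k ≤ X i - X j) :
    2 * k - |X N| ≤ |X t1 - X 0| + (|X t2 - X t1| + (|X t3 - X t2| + (|X t4 - X t3| +
      (|X N - X t4| + 0)))) := by
  rw [h0]
  have a1 := le_abs_self (X t1 - 0)
  have a2 := neg_le_abs (X t1 - 0)
  have b1 := le_abs_self (X t2 - X t1)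
  have b2 := neg_le_abs (X t2 - X t1)
  have c1 := le_abs_self (X t3 - X t2)
  have c2 := neg_le_abs (X t3 - X t2)
  have d1 := le_abs_self (X t4 - X t3)
  have d2 := neg_le_abs (X t4 - X t3)
  have e1 := le_abs_self (X N - X t4)
  have e2 := neg_le_abs (X N - X t4)
  have f1 := le_abs_self (X N)
  have f2 := neg_le_abs (X N)
  simp only [List.mem_cons, List.not_mem_nil, or_false] at hi hj
  rcases hi with rfl | rfl | rfl | rfl <;> rcases hj with rfl | rfl | rfl | rfl <;> omega

theorem rate_mono {v v' : ℝ × ℝ} (h1 : 0 ≤ v.1) (h2 : 0 ≤ v.2) (h3 : v.1 ≤ v'.1)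
    (h4 : v.2 ≤ v'.2) (hd : v' ∈ Dia) : Rate v ≤ Rate v' := by
  apply ciSup_le
  intro h
  have h5 := le_rate hd (|h.1|, |h.2|)
  simp only at h5
  have e1 : Lam (|h.1|, |h.2|) = Lam h := by
    have e2 : Lam (|h.1|, |h.2|) = Lam (h.1, |h.2|) := by
      rcases abs_cases h.1 with ⟨g, _⟩ | ⟨g, _⟩
      · rw [g]
      · rw [g]
        exact Lam_sg (h.1, |h.2|)
    rw [e2]
    rcases abs_cases h.2 with ⟨g, _⟩ | ⟨g, _⟩
    · rw [g]
    · rw [g]
      exact Lam_ng h
  rw [e1] at h5
  have g1 : h.1 * v.1 ≤ |h.1| * v'.1 := by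
    calc h.1 * v.1 ≤ |h.1| * v.1 := mul_le_mul_of_nonneg_right (le_abs_self _) h1
      _ ≤ _ := mul_le_mul_of_nonneg_left h3 (abs_nonneg _)
  have g2 : h.2 * v.2 ≤ |h.2| * v'.2 := by
    calc h.2 * v.2 ≤ |h.2| * v.2 := mul_le_mul_of_nonneg_right (le_abs_self _) h2
      _ ≤ _ := mul_le_mul_of_nonneg_left h4 (abs_nonneg _)
  linarith

/-- monotonicity of the number of words in the coordinates of the end point -/
theorem a_mono2 : ∃ K : ℝ, 0 ≤ K ∧ ∀ n : ℕ, 2 ≤ n → ∀ x y x' y' : ℤ, 0 ≤ x → 0 ≤ y → x ≤ x' →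
    y ≤ y' → (x, y) ≠ (0, 0) → (x + y - n) % 2 = 0 →
    (a n x' y' : ℝ) ≤ q n K * a n x y := by
  obtain ⟨K, hK0, hldp⟩ := ldp_words
  refine ⟨2 * K, by positivity, ?_⟩
  intro n hn x y x' y' hx hy hxx hyy hz hpar
  rcases Nat.eq_zero_or_pos (a n x' y') with h | h
  · rw [h]
    have := q_pos n (2 * K)
    simp only [Nat.cast_zero]
    positivity
  obtain ⟨w, hw, hwx, hwy, hwl⟩ := exists_of_a h
  have p1 := parity w
  have p2 := abs_add_abs_le w
  rw [hwx, hwy, hwl] at p1 p2
  rw [abs_of_nonneg (by omega : 0 ≤ x'), abs_of_nonneg (by omega : 0 ≤ y')] at p2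
  have hz' : (x', y') ≠ (0, 0) := by
    intro h'
    obtain ⟨e1, e2⟩ := Prod.mk.inj h'
    apply hz
    exact Prod.ext (by simp only; omega) (by simp only; omega)
  have h1 := hldp n hn x' y' hz' p1 (by
    rw [abs_of_nonneg (by omega : 0 ≤ x'), abs_of_nonneg (by omega : 0 ≤ y')]
    exact p2)
  have h2 := hldp n hn x y hz hpar (by
    rw [abs_of_nonneg hx, abs_of_nonneg hy]
    omega)
  have hn0 : (0 : ℝ) < n := by exact_mod_cast (by omega : 0 < n)
  have h3 : Rate ((x : ℝ) / n, (y : ℝ) / n) ≤ Rate ((x' : ℝ) / n, (y' : ℝ) / n) := by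
    have c1 : (0 : ℝ) ≤ x := by exact_mod_cast hx
    have c2 : (0 : ℝ) ≤ y := by exact_mod_cast hy
    have c3 : (x : ℝ) ≤ x' := by exact_mod_cast hxx
    have c4 : (y : ℝ) ≤ y' := by exact_mod_cast hyy
    apply rate_mono
    · simp only; positivity
    · simp only; positivity
    · simp only; gcongr
    · simp only; gcongr
    · change |(x' : ℝ) / n| + |(y' : ℝ) / n| ≤ 1
      rw [abs_of_nonneg (by have := c1.trans c3; positivity),
        abs_of_nonneg (by have := c2.trans c4; positivity), ← add_div, div_le_one hn0]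
      exact_mod_cast p2
  have hc := c_pos n
  have ha : (0 : ℝ) < a n x' y' := by exact_mod_cast h
  have hb : (0 : ℝ) < a n x y := by
    exact_mod_cast one_le_a hz hpar (by
      rw [abs_of_nonneg hx, abs_of_nonneg hy]
      omega)
  rw [Real.log_div ha.ne' hc.ne', abs_le] at h1
  rw [Real.log_div hb.ne' hc.ne', abs_le] at h2
  have h4 := mul_le_mul_of_nonneg_left h3 hn0.le
  rw [← Real.exp_log ha, ← Real.exp_log hb]
  unfold q
  rw [← Real.exp_add]
  apply Real.exp_le_exp.2
  linarith [h1.1, h1.2, h2.1, h2.2]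

open Classical in
/-- the admissible lists of types -/
noncomputable def LL5 (N : ℕ) (k l : ℤ) : Finset (List (ℕ × ℤ × ℤ)) :=
  ((Fintype.piFinset fun _ : Fin 5 => Gr N).image List.ofFn).filter
    (fun L => sL L = N ∧ L.length = 5 ∧
      ((2 * k - 1 ≤ sX L ∧ 2 * l ≤ sY L) ∨ (2 * k ≤ sX L ∧ 2 * l - 1 ≤ sY L)))

theorem jc_le_sum (k l : ℤ) (N : ℕ) :
    jc k l N ≤ ∑ L ∈ LL5 N k l, (L.map fun p => a p.1 p.2.1 p.2.2).prod := by
  classical
  unfold jc
  have hsub : fs (Jw k l) N ⊆ (LL5 N k l).biUnion (fun L => fs (fun V => Saw V ∧ Typed L V) N) := by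
    intro V hV
    rw [mem_fs] at hV
    obtain ⟨⟨hs, hadj, ⟨i1, j1, h1⟩, i2, j2, h2⟩, hl⟩ := hV
    have hmin : ∀ i, path V (min i N) = path V i := by
      intro i
      rcases le_or_gt i N with h | h
      · rw [min_eq_left h]
      · rw [min_eq_right h.le, path_ge (by omega : V.length ≤ i), hl]
    obtain ⟨t1, t2, t3, t4, h12, h23, h34, hmem⟩ := four_sort (min i1 N) (min j1 N) (min i2 N)
      (min j2 N)
    have ht : ∀ x ∈ [t1, t2, t3, t4], x ≤ N := by
      intro x hx
      rw [← hmem] at hx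
      simp only [List.mem_cons, List.not_mem_nil, or_false] at hx
      rcases hx with rfl | rfl | rfl | rfl <;> exact min_le_right _ _
    have ht4 : t4 ≤ N := ht t4 (by simp)
    obtain ⟨L, hL⟩ : ∃ L, L = cuts V 0 [t1, t2, t3, t4, N] := ⟨_, rfl⟩
    have hok : Okc V 0 [t1, t2, t3, t4, N] := by
      refine ⟨Nat.zero_le _, by omega, h12, by omega, h23, by omega, h34, by omega, ht4, by omega,
        ?_⟩
      exact hl.symm
    have hty : Typed L V := by
      have := cuts_typed V _ _ hok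
      rw [List.drop_zero, ← hL] at this
      exact this
    have hlen5 : L.length = 5 := by rw [hL]; rfl
    have hx0 : (path V 0).1 = 0 := by rw [path_zero]
    have hy0 : (path V 0).2 = 0 := by rw [path_zero]
    have hpN : path V N = (dx V, dy V) := by rw [← hl]; exact path_len V
    have hX : 2 * k - |dx V| ≤ sX L := by
      have h3 := variation (fun i => (path V i).1) N t1 t2 t3 t4 (min i1 N) (min j1 N)
        ((hmem _).1 (by simp)) ((hmem _).1 (by simp)) hx0 (k := k)
        (by rw [hmin, hmin]; exact h1)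
      rw [hpN] at h3
      rw [hL]
      unfold sX
      simp only [cuts, List.map_cons, List.map_nil, List.sum_cons, List.sum_nil]
      rw [hpN]
      exact h3
    have hY : 2 * l - |dy V| ≤ sY L := by
      have h3 := variation (fun i => (path V i).2) N t1 t2 t3 t4 (min i2 N) (min j2 N)
        ((hmem _).1 (by simp)) ((hmem _).1 (by simp)) hy0 (k := l)
        (by rw [hmin, hmin]; exact h2)
      rw [hpN] at h3
      rw [hL]
      unfold sY
      simp only [cuts, List.map_cons, List.map_nil, List.sum_cons, List.sum_nil]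
      rw [hpN]
      exact h3
    have hsL : sL L = N := by rw [← hty.length, hl]
    rw [Finset.mem_biUnion]
    refine ⟨L, ?_, ?_⟩
    · unfold LL5
      rw [Finset.mem_filter, Finset.mem_image]
      refine ⟨?_, hsL, hlen5, ?_⟩
      · have hgr : ∀ p ∈ L, p ∈ Gr N := by
          have key : ∀ (L : List (ℕ × ℤ × ℤ)) (V : List St), Typed L V → V.length ≤ N →
              ∀ p ∈ L, p ∈ Gr N := by
            intro L
            induction L with
            | nil => intro V _ _ p hp; simp at hp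
            | cons r L ih =>
              intro V hV hVl p hp
              obtain ⟨g1, g2, g3, g4⟩ := hV
              rcases List.mem_cons.1 hp with rfl | hp
              · have g5 := ty_mem_Gr (n := N) (u := V.take p.1) (by
                  rw [List.length_take]; omega)
                have g6 : ty (V.take p.1) = p := by
                  unfold ty
                  rw [g2, g3, List.length_take, min_eq_left g1]
                rwa [g6] at g5
              · exact ih (V.drop r.1) g4 (by rw [List.length_drop]; omega) p hp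
          exact key L V hty (by omega)
        refine ⟨fun i => L.get (i.cast hlen5.symm), ?_, ?_⟩
        · rw [Fintype.mem_piFinset]
          intro i
          exact hgr _ (List.get_mem _ _)
        · apply List.ext_get
          · rw [List.length_ofFn, hlen5]
          · intro n h1 h2
            simp only [List.get_eq_getElem, List.getElem_ofFn, Fin.val_cast]
      · have ha1 := abs_nonneg (dx V)
        have ha2 := abs_nonneg (dy V)
        rcases le_or_gt (|dx V|) 0 with h | h
        · right; constructor <;> omega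
        · left; constructor <;> omega
    · rw [mem_fs]
      exact ⟨⟨hs, hty⟩, hl⟩
  refine (Finset.card_le_card hsub).trans (Finset.card_biUnion_le.trans ?_)
  apply Finset.sum_le_sum
  intro L _
  exact typed_card L N

theorem card_LL5 {N n : ℕ} (hn : 2 ≤ n) (hN : N ≤ n) (k l : ℤ) :
    ((LL5 N k l).card : ℝ) ≤ q n 120 := by
  classical
  have h1 : (LL5 N k l).card ≤ n ^ 40 := by
    unfold LL5
    refine (Finset.card_filter_le _ _).trans (Finset.card_image_le.trans ?_)
    rw [Fintype.card_piFinset]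
    simp only [Finset.prod_const, Finset.card_univ, Fintype.card_fin]
    have h2 : (Gr N).card ≤ n ^ 8 := by
      refine le_trans (Finset.card_le_card ?_) (card_Gr hn)
      intro p hp
      unfold Gr at hp ⊢
      rw [Finset.mem_product, Finset.mem_product, Finset.mem_range, Finset.mem_Icc,
        Finset.mem_Icc] at hp ⊢
      have : (N : ℤ) ≤ n := by exact_mod_cast hN
      omega
    calc (Gr N).card ^ 5 ≤ (n ^ 8) ^ 5 := Nat.pow_le_pow_left h2 5
      _ = n ^ 40 := by ring
  have h2 := pow_le_q hn 40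
  norm_num at h2
  refine le_trans ?_ h2
  exact_mod_cast h1

/-- **Upper bound.** -/
theorem upp : ∃ K : ℝ, 0 ≤ K ∧ ∀ n : ℕ, 2 ≤ n → ∀ k l : ℤ, 1 ≤ k → 1 ≤ l → ∀ N : ℕ,
    N + 1 ≤ n → (N + 1) % 2 = 0 → (jc k l N : ℝ) ≤ q n K * a (N + 1) (2 * k) (2 * l) := by
  obtain ⟨K1, hK1, hty⟩ := typed_glue
  obtain ⟨K2, hK2, hglue⟩ := a_glue
  obtain ⟨K3, hK3, hmono⟩ := a_mono2
  refine ⟨120 + 5 * K1 + K2 + K3, by positivity, ?_⟩
  intro n hn k l hk hl N hN hpar
  have hN2 : 2 ≤ N + 1 := by omega
  have hterm : ∀ L ∈ LL5 N k l, (((L.map fun p => a p.1 p.2.1 p.2.2).prod : ℕ) : ℝ) ≤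
      q n (5 * K1 + K2 + K3) * a (N + 1) (2 * k) (2 * l) := by
    intro L hL
    unfold LL5 at hL
    rw [Finset.mem_filter] at hL
    obtain ⟨-, hs, h5, hor⟩ := hL
    have h1 := hty n hn L (by omega)
    rw [hs, h5] at h1
    refine h1.trans ?_
    have hA : (0 : ℝ) ≤ a (N + 1) (2 * k) (2 * l) := Nat.cast_nonneg _
    -- one more step
    have key : ∀ x y : ℤ, 2 * k ≤ x → 2 * l ≤ y →
        (a (N + 1) x y : ℝ) ≤ q n K3 * a (N + 1) (2 * k) (2 * l) := by
      intro x y hx hy
      have h2 := hmono (N + 1) hN2 (2 * k) (2 * l) x y (by omega) (by omega) hx hy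
        (by intro h; have := (Prod.mk.inj h).1; omega) (by push_cast; omega)
      refine h2.trans ?_
      apply mul_le_mul_of_nonneg_right _ hA
      unfold q
      apply Real.exp_le_exp.2
      apply mul_le_mul_of_nonneg_left _ hK3
      apply pow_le_pow_left₀ (log_pos' hN2).le
      apply Real.log_le_log
      · exact_mod_cast (by omega : 0 < N + 1)
      · exact_mod_cast hN
    have a10 : a 1 1 0 = 1 ∨ 1 ≤ a 1 1 0 := Or.inr TH795.EP2.a_one
    have a10' : (1 : ℝ) ≤ a 1 1 0 := by
      have := TH795.EP2.a_one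
      exact_mod_cast this
    have a01' : (1 : ℝ) ≤ a 1 0 1 := by
      rw [a_sw]
      exact a10'
    have hcore : (a N (sX L) (sY L) : ℝ) ≤ q n (K2 + K3) * a (N + 1) (2 * k) (2 * l) := by
      have hX := sX_nonneg L
      have hY := sY_nonneg L
      have hAN : (0 : ℝ) ≤ a N (sX L) (sY L) := Nat.cast_nonneg _
      rcases hor with ⟨h2, h3⟩ | ⟨h2, h3⟩
      · have h4 := hglue n hn N 1 hN (sX L) (sY L) 1 0 (by
          intro h; have := (Prod.mk.inj h).1; omega)
        rw [add_zero] at h4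
        calc (a N (sX L) (sY L) : ℝ) = a N (sX L) (sY L) * 1 := (mul_one _).symm
          _ ≤ a N (sX L) (sY L) * a 1 1 0 := mul_le_mul_of_nonneg_left a10' hAN
          _ ≤ _ := h4
          _ ≤ q n K2 * (q n K3 * a (N + 1) (2 * k) (2 * l)) :=
              mul_le_mul_of_nonneg_left (key _ _ (by omega) (by omega)) (q_pos _ _).le
          _ = (q n K2 * q n K3) * a (N + 1) (2 * k) (2 * l) := by ring
          _ = _ := by rw [q_mul]
      · have h4 := hglue n hn N 1 hN (sX L) (sY L) 0 1 (by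
          intro h; have := (Prod.mk.inj h).2; omega)
        rw [add_zero] at h4
        calc (a N (sX L) (sY L) : ℝ) = a N (sX L) (sY L) * 1 := (mul_one _).symm
          _ ≤ a N (sX L) (sY L) * a 1 0 1 := mul_le_mul_of_nonneg_left a01' hAN
          _ ≤ _ := h4
          _ ≤ q n K2 * (q n K3 * a (N + 1) (2 * k) (2 * l)) :=
              mul_le_mul_of_nonneg_left (key _ _ (by omega) (by omega)) (q_pos _ _).le
          _ = (q n K2 * q n K3) * a (N + 1) (2 * k) (2 * l) := by ring
          _ = _ := by rw [q_mul]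
    calc q n (K1 * (5 : ℕ)) * (a N (sX L) (sY L) : ℝ)
        ≤ q n (K1 * (5 : ℕ)) * (q n (K2 + K3) * a (N + 1) (2 * k) (2 * l)) :=
          mul_le_mul_of_nonneg_left hcore (q_pos _ _).le
      _ = (q n (K1 * (5 : ℕ)) * q n (K2 + K3)) * a (N + 1) (2 * k) (2 * l) := by ring
      _ = _ := by
          rw [q_mul]
          congr 2
          push_cast
          ring
  have h1 : (jc k l N : ℝ) ≤ ∑ L ∈ LL5 N k l,
      (((L.map fun p => a p.1 p.2.1 p.2.2).prod : ℕ) : ℝ) := by
    exact_mod_cast jc_le_sum k l N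
  have h2 := Finset.sum_le_card_nsmul _ _ _ hterm
  rw [nsmul_eq_mul] at h2
  have hA : (0 : ℝ) ≤ a (N + 1) (2 * k) (2 * l) := Nat.cast_nonneg _
  calc (jc k l N : ℝ) ≤ _ := h1.trans h2
    _ ≤ q n 120 * (q n (5 * K1 + K2 + K3) * a (N + 1) (2 * k) (2 * l)) := by
        apply mul_le_mul_of_nonneg_right (card_LL5 hn (by omega) k l)
        exact mul_nonneg (q_pos _ _).le hA
    _ = (q n 120 * q n (5 * K1 + K2 + K3)) * a (N + 1) (2 * k) (2 * l) := by ring
    _ = _ := by
        rw [q_mul]
        congr 2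
        ring

end Pool.Agent.K6.H5.JW
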