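import Pool.Agent.K6.H5.JW.Low
import Pool.Agent.K6.H5.JW.Up2
import Pool.Agent.Y981.L2.Short
import Pool.Agent.Y981.L2.PolyE
import Pool.Agent.Y981.L2.Area4

/-!
The joint law of the width and of the height of the self-avoiding polygons.
-/

set_option autoImplicit false

namespace Pool.Agent.K6.H5.JW

open Pool.Agent.TH795.EP Pool.Agent.TH795.EP2 Pool.Agent.TH795.SE2 Pool.Agent.TH262.SawL H981 Finset
open Pool.Agent.Y981.L2

/-- the loop has height at least `l` -/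
def Ht {M : ℕ} (l : ℤ) (f : ZMod M → ℤ × ℤ) : Prop := ∃ i j, l ≤ (f i).2 - (f j).2

theorem loops_eq {n : ℕ} (hn : 1 ≤ n) (k l : ℤ) :
    {f : ZMod (2 * n) → ℤ × ℤ | IsLoop (2 * n) f ∧ Wd k f ∧ Ht l f}.ncard =
      jc k l (2 * n - 1) := by
  classical
  have : NeZero (2 * n) := ⟨by omega⟩
  have hset : {f : ZMod (2 * n) → ℤ × ℤ | IsLoop (2 * n) f ∧ Wd k f ∧ Ht l f} =
      (fun V : List St => fun i : ZMod (2 * n) => path V i.val) ''
        (fs (Jw k l) (2 * n - 1) : Set (List St)) := by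
    ext f
    constructor
    · rintro ⟨hf, ⟨i1, j1, h1⟩, i2, j2, h2⟩
      obtain ⟨w, hw, hwl, hp⟩ := loop_word (by omega) hf 0
      have hp' : ∀ i : ZMod (2 * n), path w i.val = f i := by
        intro i
        rw [hp _ (ZMod.val_lt i), ZMod.natCast_zmod_val, zero_add, hf.1]
        simp
      refine ⟨w, ?_, ?_⟩
      · rw [Finset.mem_coe, mem_fs]
        refine ⟨⟨hw, ?_, ⟨i1.val, j1.val, ?_⟩, i2.val, j2.val, ?_⟩, hwl⟩
        · have h3 := hf.2.2 (((2 * n - 1 : ℕ) : ZMod (2 * n)))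
          have e1 : ((2 * n - 1 : ℕ) : ZMod (2 * n)) + 1 = 0 := by
            have h4 : ((2 * n - 1 + 1 : ℕ) : ZMod (2 * n)) = 0 := by
              rw [show 2 * n - 1 + 1 = 2 * n by omega]
              exact ZMod.natCast_self _
            push_cast at h4
            exact h4
          rw [e1, hf.1] at h3
          have h5 := hp' ((2 * n - 1 : ℕ) : ZMod (2 * n))
          rw [ZMod.val_cast_of_lt (by omega), ← hwl, path_len] at h5
          rw [← hwl, ← h5] at h3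
          simp only [Prod.fst_zero, Prod.snd_zero, zero_sub, abs_neg] at h3
          exact h3
        · rw [hp', hp']; exact h1
        · rw [hp', hp']; exact h2
      · funext i
        exact hp' i
    · rintro ⟨V, hV, rfl⟩
      rw [Finset.mem_coe, mem_fs] at hV
      obtain ⟨⟨hs, hadj, ⟨i1, j1, h1⟩, i2, j2, h2⟩, hl⟩ := hV
      have hM : 2 * n = V.length + 1 := by omega
      have hmin : ∀ i, path V (min i (2 * n - 1)) = path V i := by
        intro i
        rcases le_or_gt i (2 * n - 1) with h | h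
        · rw [min_eq_left h]
        · rw [min_eq_right h.le, path_ge (by omega : V.length ≤ i), hl]
      have hv : ∀ i, path V (((min i (2 * n - 1) : ℕ) : ZMod (2 * n))).val = path V i := by
        intro i
        rw [ZMod.val_cast_of_lt (by have := min_le_right i (2 * n - 1); omega), hmin]
      refine ⟨loop_close hM (by omega) hs hadj,
        ⟨((min i1 (2 * n - 1) : ℕ) : ZMod (2 * n)), ((min j1 (2 * n - 1) : ℕ) : ZMod (2 * n)), ?_⟩,
        ((min i2 (2 * n - 1) : ℕ) : ZMod (2 * n)), ((min j2 (2 * n - 1) : ℕ) : ZMod (2 * n)), ?_⟩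
      · simp only
        rw [hv, hv]; exact h1
      · simp only
        rw [hv, hv]; exact h2
  rw [hset, Set.ncard_image_of_injOn, Set.ncard_coe_finset]
  · rfl
  · intro V hV V' hV' he
    rw [Finset.mem_coe, mem_fs] at hV hV'
    apply word_ext (by omega)
    intro j hj
    have h1 := congrFun he (j : ZMod (2 * n))
    simp only at h1
    rwa [ZMod.val_cast_of_lt (by omega)] at h1

/-- the law of the end point in terms of the connective constant -/
theorem a_law : ∃ K : ℝ, 0 ≤ K ∧ ∀ n : ℕ, 2 ≤ n → ∀ x y : ℤ, (x, y) ≠ (0, 0) →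
    (x + y - n) % 2 = 0 → |x| + |y| ≤ n → 0 < (a n x y : ℝ) ∧
    |Real.log (a n x y) - (n * Real.log mu - n * Rate ((x : ℝ) / n, (y : ℝ) / n))| ≤
      K * Real.log n ^ 2 := by
  obtain ⟨K1, hK1, hldp⟩ := ldp_words
  obtain ⟨K2, hK2, hup, -⟩ := exists_K
  refine ⟨K1 + K2, by positivity, ?_⟩
  intro n hn x y hz hpar hle
  have h1 := hldp n hn x y hz hpar hle
  have ha : (0 : ℝ) < a n x y := by exact_mod_cast one_le_a hz hpar hle
  have hc := c_pos n
  have hmu := mu_pos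
  have h2 : mu ^ n ≤ (c n : ℝ) := by rw [c_eq]; exact mu_pow_le n
  have h3 := hup n hn n le_rfl
  have h4 := Real.log_le_log (pow_pos hmu n) h2
  have h5 := Real.log_le_log hc h3
  rw [Real.log_pow] at h4
  rw [Real.log_mul (pow_pos hmu n).ne' (q_pos _ _).ne', Real.log_pow] at h5
  have h6 : Real.log (q n K2) = K2 * Real.log n ^ 2 := by unfold q; rw [Real.log_exp]
  rw [h6] at h5
  rw [Real.log_div ha.ne' hc.ne', abs_le] at h1
  have hL : 0 ≤ K2 * Real.log n ^ 2 := by positivity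
  refine ⟨ha, ?_⟩
  rw [abs_le]
  constructor <;> linarith [h1.1, h1.2]

theorem ln_law : ∃ K : ℝ, 0 ≤ K ∧ ∀ n : ℕ, 2 ≤ n → 0 < (ln n : ℝ) ∧
    |Real.log (ln n) - (2 * n : ℕ) * Real.log mu| ≤ K * Real.log n ^ 2 := by
  obtain ⟨K1, hK1, h1⟩ := ln_le
  obtain ⟨K3, hK3, hPP⟩ := Pool.Agent.TH508.LT.sq_PP2
  refine ⟨K1 + K3, by positivity, ?_⟩
  intro n hn
  obtain ⟨hl0, h2⟩ := h1 n hn
  obtain ⟨p1, -⟩ := hPP n hn
  have hmu := mu_pos
  have hn2 : (2 : ℝ) ≤ n := by exact_mod_cast hn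
  have hln := ln_eq (show 1 ≤ n by omega)
  have hmun : 0 < mu ^ (2 * n) := pow_pos hmu _
  have hP0 : 0 < PP n := lt_of_lt_of_le (by positivity) p1
  have h3 : mu ^ (2 * n) * Real.exp (-(K3 * Real.log n ^ 2)) ≤ ln n := by
    refine p1.trans ?_
    rw [hln]
    nlinarith
  have h4 := Real.log_le_log (by positivity) h3
  have h5 := Real.log_le_log hl0 h2
  rw [Real.log_mul hmun.ne' (Real.exp_pos _).ne', Real.log_exp, Real.log_pow] at h4
  rw [Real.log_mul hmun.ne' (q_pos _ _).ne', Real.log_pow] at h5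
  have h6 : Real.log (q n K1) = K1 * Real.log n ^ 2 := by unfold q; rw [Real.log_exp]
  rw [h6] at h5
  have hL : 0 ≤ K1 * Real.log n ^ 2 := by positivity
  have hL' : 0 ≤ K3 * Real.log n ^ 2 := by positivity
  refine ⟨hl0, ?_⟩
  rw [abs_le]
  constructor <;> linarith

theorem logsq_two {n : ℕ} (hn : 2 ≤ n) : Real.log ((2 * n : ℕ) : ℝ) ^ 2 ≤ 4 * Real.log n ^ 2 := by
  have h2 := pow_le_pow_left₀ (log_pos' (show 2 ≤ 2 * n by omega)).le (log_two_mul hn) 2
  linarith [h2, (by ring : (2 * Real.log (n : ℝ)) ^ 2 = 4 * Real.log n ^ 2)]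

/-- **The joint law.** -/
theorem joint_law : ∃ K : ℝ, 0 ≤ K ∧ ∀ n : ℕ, 2 ≤ n → ∀ k l : ℤ, 1 ≤ k → 1 ≤ l → k + l < n →
    0 < (jc k l (2 * n - 1) : ℝ) ∧
    |Real.log ((jc k l (2 * n - 1) : ℝ) / ln n) +
      2 * n * Rate ((k : ℝ) / n, (l : ℝ) / n)| ≤ K * Real.log n ^ 2 := by
  obtain ⟨K1, hK1, hupp⟩ := upp
  obtain ⟨K2, hK2, hlow⟩ := low
  obtain ⟨K3, hK3, hlaw⟩ := a_law
  obtain ⟨K4, hK4, hsh⟩ := shorten
  obtain ⟨K5, hK5, hln⟩ := ln_law
  refine ⟨4 * K1 + 4 * K2 + 20 * K3 + 4 * K4 + K5, by positivity, ?_⟩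
  intro n hn k l hk hl hkl
  obtain ⟨lm, hlm⟩ : ∃ lm, lm = Real.log mu := ⟨_, rfl⟩
  obtain ⟨Q, hQ⟩ : ∃ Q, Q = Real.log (n : ℝ) ^ 2 := ⟨_, rfl⟩
  have hQ0 : 0 ≤ Q := by rw [hQ]; positivity
  obtain ⟨r, hr⟩ : ∃ r, r = Rate ((k : ℝ) / n, (l : ℝ) / n) := ⟨_, rfl⟩
  have hn0 : (0 : ℝ) < n := by exact_mod_cast (by omega : 0 < n)
  have h2n : 2 ≤ 2 * n := by omega
  have hlog2 := logsq_two hn
  rw [← hQ] at hlog2
  have hmonoL : ∀ m : ℕ, 2 ≤ m → m ≤ 2 * n → Real.log (m : ℝ) ^ 2 ≤ 4 * Q := by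
    intro m hm hmn
    refine le_trans ?_ hlog2
    apply pow_le_pow_left₀ (log_pos' hm).le
    apply Real.log_le_log
    · exact_mod_cast (by omega : 0 < m)
    · exact_mod_cast hmn
  have abs_k : |k| = k := abs_of_nonneg (by omega)
  have abs_l : |l| = l := abs_of_nonneg (by omega)
  have abs_2k : |2 * k| = 2 * k := abs_of_nonneg (by omega)
  have abs_2l : |2 * l| = 2 * l := abs_of_nonneg (by omega)
  -- the big word count
  obtain ⟨hA0, hA⟩ := hlaw (2 * n) h2n (2 * k) (2 * l)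
    (by intro h; have := (Prod.mk.inj h).1; omega) (by push_cast; omega)
    (by rw [abs_2k, abs_2l]; push_cast; omega)
  have e1 : (((2 * k : ℤ) : ℝ) / ((2 * n : ℕ) : ℝ), ((2 * l : ℤ) : ℝ) / ((2 * n : ℕ) : ℝ)) =
      ((k : ℝ) / n, (l : ℝ) / n) := by
    push_cast
    rw [mul_div_mul_left _ _ (by norm_num : (2 : ℝ) ≠ 0),
      mul_div_mul_left _ _ (by norm_num : (2 : ℝ) ≠ 0)]
  rw [e1, ← hr, ← hlm] at hA
  have hA' : |Real.log (a (2 * n) (2 * k) (2 * l)) - (2 * n * lm - 2 * n * r)| ≤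
      4 * K3 * Q := by
    have h1 := hA.trans (mul_le_mul_of_nonneg_left hlog2 hK3)
    push_cast at h1
    linarith
  rw [abs_le] at hA'
  -- the pair of small words
  have hpair : ∃ n1 n2 : ℕ, n1 + n2 + 1 = 2 * n - 1 ∧ 0 < (a n1 k l : ℝ) ∧ 0 < (a n2 k l : ℝ) ∧
      2 * n * lm - 2 * n * r - (16 * K3 + 4 * K4) * Q ≤
        Real.log (a n1 k l) + Real.log (a n2 k l) := by
    rcases Int.emod_two_eq_zero_or_one (k + l - n) with hp | hp
    · refine ⟨n, n - 2, by omega, ?_⟩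
      obtain ⟨g0, g1⟩ := hlaw n hn k l (by intro h; have := (Prod.mk.inj h).1; omega) hp
        (by rw [abs_k, abs_l]; omega)
      have g2 := hsh n hn n le_rfl k l (by intro h; have := (Prod.mk.inj h).1; omega)
        (by rw [abs_k, abs_l]; omega)
      have g3 : (0 : ℝ) < a (n - 2) k l := by
        rcases (Nat.cast_nonneg (α := ℝ) (a (n - 2) k l)).eq_or_lt with h | h
        · rw [← h, mul_zero] at g2
          linarith
        · exact h
      have g4 := Real.log_le_log g0 g2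
      rw [Real.log_mul (q_pos _ _).ne' g3.ne'] at g4
      have g5 : Real.log (q n K4) = K4 * Q := by unfold q; rw [Real.log_exp, hQ]
      rw [g5] at g4
      rw [← hlm, ← hr, ← hQ, abs_le] at g1
      have h5 : 0 ≤ K3 * Q := by positivity
      have h6 : 0 ≤ K4 * Q := by positivity
      refine ⟨g0, g3, ?_⟩
      linarith [g1.1]
    · have hn3 : 3 ≤ n := by omega
      refine ⟨n - 1, n - 1, by omega, ?_⟩
      have c1 : ((n - 1 : ℕ) : ℤ) = n - 1 := by omega
      obtain ⟨g0, g1⟩ := hlaw (n - 1) (by omega) k l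
        (by intro h; have := (Prod.mk.inj h).1; omega) (by rw [c1]; omega)
        (by rw [abs_k, abs_l, c1]; omega)
      have c2 : ((2 * (n - 1) : ℕ) : ℤ) = 2 * n - 2 := by omega
      obtain ⟨f0, f1⟩ := hlaw (2 * (n - 1)) (by omega) (2 * k) (2 * l)
        (by intro h; have := (Prod.mk.inj h).1; omega) (by rw [c2]; omega)
        (by rw [abs_2k, abs_2l, c2]; omega)
      have e2 : (((2 * k : ℤ) : ℝ) / ((2 * (n - 1) : ℕ) : ℝ),
          ((2 * l : ℤ) : ℝ) / ((2 * (n - 1) : ℕ) : ℝ)) =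
          ((k : ℝ) / ((n - 1 : ℕ) : ℝ), (l : ℝ) / ((n - 1 : ℕ) : ℝ)) := by
        rw [Nat.cast_mul]
        push_cast
        rw [mul_div_mul_left _ _ (by norm_num : (2 : ℝ) ≠ 0),
          mul_div_mul_left _ _ (by norm_num : (2 : ℝ) ≠ 0)]
      rw [e2] at f1
      have g2 := hsh (2 * n) h2n (2 * n) le_rfl (2 * k) (2 * l)
        (by intro h; have := (Prod.mk.inj h).1; omega)
        (by rw [abs_2k, abs_2l]; push_cast; omega)
      rw [show 2 * n - 2 = 2 * (n - 1) by omega] at g2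
      have g4 := Real.log_le_log hA0 g2
      rw [Real.log_mul (q_pos _ _).ne' f0.ne'] at g4
      have g5 : Real.log (q (2 * n) K4) = K4 * Real.log ((2 * n : ℕ) : ℝ) ^ 2 := by
        unfold q; rw [Real.log_exp]
      rw [g5] at g4
      have g6 := mul_le_mul_of_nonneg_left hlog2 hK4
      have g7 := mul_le_mul_of_nonneg_left (hmonoL (n - 1) (by omega) (by omega)) hK3
      have g8 := mul_le_mul_of_nonneg_left (hmonoL (2 * (n - 1)) (by omega) (by omega)) hK3
      obtain ⟨ρ, hρ⟩ : ∃ ρ, ρ = Rate ((k : ℝ) / ((n - 1 : ℕ) : ℝ), (l : ℝ) / ((n - 1 : ℕ) : ℝ)) :=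
        ⟨_, rfl⟩
      rw [← hρ, ← hlm] at g1 f1
      have g9 := g1.trans g7
      have f9 := f1.trans g8
      rw [abs_le] at g9 f9
      have c3 : ((2 * (n - 1) : ℕ) : ℝ) = 2 * ((n - 1 : ℕ) : ℝ) := by push_cast; ring
      rw [c3] at f9
      refine ⟨g0, g0, ?_⟩
      have h5 : 0 ≤ K3 * Q := by positivity
      linarith [g9.1, f9.2, hA'.1]
  obtain ⟨n1, n2, hs, hp1, hp2, hpair⟩ := hpair
  have hL := hlow (2 * n) h2n k l hk n1 n2 (by omega)
  rw [hs] at hL
  have hU := hupp (2 * n) h2n k l hk hl (2 * n - 1) (by omega) (by omega)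
  rw [show 2 * n - 1 + 1 = 2 * n by omega] at hU
  have hJ0 : (0 : ℝ) < jc k l (2 * n - 1) := by
    rcases (Nat.cast_nonneg (α := ℝ) (jc k l (2 * n - 1))).eq_or_lt with h | h
    · rw [← h, mul_zero] at hL
      have := mul_pos hp1 hp2
      linarith
    · exact h
  obtain ⟨hl0, hlnn⟩ := hln n hn
  rw [← hlm, ← hQ, abs_le] at hlnn
  have hqlog : ∀ A : ℝ, 0 ≤ A → Real.log (q (2 * n) A) ≤ 4 * A * Q := by
    intro A hA
    unfold q
    rw [Real.log_exp]
    have := mul_le_mul_of_nonneg_left hlog2 hA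
    linarith
  have hL' := Real.log_le_log (mul_pos hp1 hp2) hL
  rw [Real.log_mul hp1.ne' hp2.ne', Real.log_mul (q_pos _ _).ne' hJ0.ne'] at hL'
  have hU' := Real.log_le_log hJ0 hU
  rw [Real.log_mul (q_pos _ _).ne' hA0.ne'] at hU'
  have q1 := hqlog K1 hK1
  have q2 := hqlog K2 hK2
  have c4 : (((2 * n : ℕ) : ℝ)) = 2 * (n : ℝ) := by push_cast; ring
  rw [c4] at hlnn
  have z1 : 0 ≤ K1 * Q := by positivity
  have z2 : 0 ≤ K2 * Q := by positivity
  have z3 : 0 ≤ K3 * Q := by positivity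
  have z4 : 0 ≤ K4 * Q := by positivity
  refine ⟨hJ0, ?_⟩
  rw [Real.log_div hJ0.ne' hl0.ne', ← hr, ← hQ, abs_le]
  constructor
  · linarith [hlnn.1, hlnn.2, hA'.1, hA'.2]
  · linarith [hlnn.1, hlnn.2, hA'.1, hA'.2]

end Pool.Agent.K6.H5.JW
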