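import Pool.Agent.K6.H5.JW.Ext

/-!
Self-avoiding words below the line through their end points, and gluing two of them.
-/

set_option autoImplicit false

namespace Pool.Agent.K6.H5.JW

open Pool.Agent.TH795.EP Pool.Agent.TH795.EP2 Pool.Agent.TH795.SE2 Pool.Agent.TH262.SawL H981 Finset
open Pool.Agent.Y981.L2

/-- the linear form which vanishes at `(k, l)` -/
def ps (k l : ℤ) (p : ℤ × ℤ) : ℤ := k * p.2 - l * p.1

theorem ps_add (k l : ℤ) (a b : ℤ × ℤ) : ps k l (a.1 + b.1, a.2 + b.2) = ps k l a + ps k l b := by
  unfold ps; ring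

/-- below the line through the origin and `(k, l)` -/
def Un (k l : ℤ) (w : List St) : Prop := ∀ i, ps k l (path w i) ≤ 0

/-- number of words below the line, with displacement `(k, l)` -/
noncomputable def lq (k l : ℤ) (m : ℕ) : ℕ :=
  (fs (fun w => (Saw w ∧ dx w = k ∧ dy w = l) ∧ Un k l w) m).card

theorem path_end (w : List St) : path w w.length = (dx w, dy w) := path_len w

/-- the cyclic shift at the highest point -/
theorem cyc_ps (k l : ℤ) (w : List St) : ∃ t, t ≤ w.length ∧
    (∀ i, ps k l (path (w.drop t) i) ≤ 0) ∧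
    ∀ i, ps k l (path (w.take t) i) ≤ ps k l (dx (w.take t), dy (w.take t)) := by
  obtain ⟨t, ht, hmax⟩ : ∃ t ∈ range (w.length + 1), ∀ i ∈ range (w.length + 1),
      ps k l (path w i) ≤ ps k l (path w t) :=
    Finset.exists_max_image (range (w.length + 1)) (fun i => ps k l (path w i)) ⟨0, by simp⟩
  rw [Finset.mem_range] at ht
  have hmax' : ∀ i, ps k l (path w i) ≤ ps k l (path w t) := by
    intro i
    rcases le_or_gt i w.length with h | h
    · exact hmax i (by rw [Finset.mem_range]; omega)
    · rw [path_ge h.le]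
      exact hmax _ (by rw [Finset.mem_range]; omega)
  refine ⟨t, by omega, fun i => ?_, fun i => ?_⟩
  · have h1 := path_drop w t i
    have h2 := hmax' (t + i)
    rw [h1, ps_add] at h2
    linarith
  · have h1 : path w t = (dx (w.take t), dy (w.take t)) := rfl
    rw [← h1]
    rcases le_or_gt i t with h | h
    · rw [path_take h]
      exact hmax' i
    · have h2 : (w.take t).length = t := by rw [List.length_take]; omega
      rw [path_ge (by omega : (w.take t).length ≤ i), h2, path_take le_rfl]

theorem un_glue {k l : ℤ} {u v : List St} {i j : ℕ} (hi : i ≤ u.length)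
    (hu : ∀ n, ps k l (path u n) ≤ 0) (hv : ∀ n, ps k l (path v n) ≤ ps k l (dx v, dy v))
    (huv : ps k l (dx u, dy u) + ps k l (dx v, dy v) ≤ 0)
    (hx : dx (u.take i ++ v.drop j) = dx u + dx v)
    (hy : dy (u.take i ++ v.drop j) = dy u + dy v) : Un k l (u.take i ++ v.drop j) := by
  have hlen : (u.take i).length = i := by rw [List.length_take]; omega
  intro n
  rcases le_or_gt n i with h1 | h1
  · rw [path_append_left (by omega), path_take h1]
    exact hu n
  · obtain ⟨r, rfl⟩ : ∃ r, n = i + r := ⟨n - i, by omega⟩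
    have g := path_append_right (u.take i) (v.drop j) r
    rw [hlen] at g
    rw [g]
    have g1 := path_drop v j r
    have g2 : path v j = (dx (v.take j), dy (v.take j)) := rfl
    have f1 : dx v = dx (v.take j) + dx (v.drop j) := by
      rw [← dx_append, List.take_append_drop]
    have f2 : dy v = dy (v.take j) + dy (v.drop j) := by
      rw [← dy_append, List.take_append_drop]
    rw [dx_append] at hx
    rw [dy_append] at hy
    have g3 := hv (j + r)
    rw [g1, ps_add, g2] at g3
    have e1 : dx (u.take i) = dx u + dx (v.take j) := by omega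
    have e2 : dy (u.take i) = dy u + dy (v.take j) := by omega
    have e3 : ps k l (dx (u.take i) + (path (v.drop j) r).1, dy (u.take i) + (path (v.drop j) r).2) =
        ps k l (dx u, dy u) + (ps k l (dx (v.take j), dy (v.take j)) +
          ps k l (path (v.drop j) r)) := by
      rw [e1, e2]
      unfold ps
      ring
    rw [e3]
    linarith

theorem cyc_q (k l : ℤ) (m : ℕ) :
    a m k l ≤ ∑ p ∈ (range (m + 1)).sigma (fun t => range (m - t + 1) ×ˢ range (t + 1)),
      lq k l (p.2.1 + (p.1 - p.2.2)) * (c (m - p.1 - p.2.1) * c p.2.2) := by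
  classical
  unfold a lq c
  have e : ∀ p : (_ : ℕ) × (ℕ × ℕ),
      (fs (fun w => (Saw w ∧ dx w = k ∧ dy w = l) ∧ Un k l w) (p.2.1 + (p.1 - p.2.2))).card *
        ((fs Saw (m - p.1 - p.2.1)).card * (fs Saw p.2.2).card) =
      (fs (fun w => (Saw w ∧ dx w = k ∧ dy w = l) ∧ Un k l w) (p.2.1 + (p.1 - p.2.2)) ×ˢ
        (fs Saw (m - p.1 - p.2.1) ×ˢ fs Saw p.2.2)).card := by
    intro p
    rw [Finset.card_product, Finset.card_product]
  simp only [e]
  rw [← Finset.card_sigma]
  apply card_le_of_decode (fun q => (q.2.2.2 ++ q.2.1.drop q.1.2.1) ++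
    (q.2.1.take q.1.2.1 ++ q.2.2.1))
  intro w hw
  rw [mem_fs] at hw
  obtain ⟨⟨hw1, hwx, hwy⟩, hwl⟩ := hw
  obtain ⟨t, ht, hu, hv⟩ := cyc_ps k l w
  have hsu : Saw (w.drop t) := hw1.subw (List.drop_suffix _ _).isInfix
  have hsv : Saw (w.take t) := hw1.subw (List.take_prefix _ _).isInfix
  have hlu : (w.drop t).length = m - t := by rw [List.length_drop, hwl]
  have hlv : (w.take t).length = t := by rw [List.length_take]; omega
  have f1 : dx w = dx (w.take t) + dx (w.drop t) := by rw [← dx_append, List.take_append_drop]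
  have f2 : dy w = dy (w.take t) + dy (w.drop t) := by rw [← dy_append, List.take_append_drop]
  obtain ⟨i, j, hi, hj, h1, h2, h3⟩ := glue_exists hsu hsv
  have hlen : ((w.drop t).take i).length = i := by rw [List.length_take]; omega
  have hz : ps k l (dx (w.drop t), dy (w.drop t)) + ps k l (dx (w.take t), dy (w.take t)) ≤ 0 := by
    rw [← ps_add]
    simp only
    rw [show dx (w.drop t) + dx (w.take t) = k by omega,
      show dy (w.drop t) + dy (w.take t) = l by omega]
    unfold ps
    simp only
    linarith
  refine ⟨⟨⟨t, (i, j)⟩, ((w.drop t).take i ++ (w.take t).drop j, (w.drop t).drop i,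
    (w.take t).take j)⟩, ?_, ?_⟩
  · rw [Finset.mem_sigma, Finset.mem_sigma, Finset.mem_product, Finset.mem_product,
      Finset.mem_product, mem_fs, mem_fs, mem_fs, Finset.mem_range, Finset.mem_range,
      Finset.mem_range]
    simp only
    refine ⟨⟨by omega, by omega, by omega⟩, ⟨⟨⟨h1, by omega, by omega⟩, ?_⟩, ?_⟩, ⟨?_, ?_⟩, ?_, ?_⟩
    · exact un_glue hi hu hv hz h2 h3
    · rw [List.length_append, hlen, List.length_drop, hlv]
    · exact hsu.subw (List.drop_suffix _ _).isInfix
    · rw [List.length_drop, hlu]
    · exact hsv.subw (List.take_prefix _ _).isInfix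
    · rw [List.length_take]; omega
  · simp only
    have g1 : ((w.drop t).take i ++ (w.take t).drop j).take i = (w.drop t).take i := by
      have := List.take_left (l₁ := (w.drop t).take i) (l₂ := (w.take t).drop j)
      rwa [hlen] at this
    have g2 : ((w.drop t).take i ++ (w.take t).drop j).drop i = (w.take t).drop j := by
      have := List.drop_left (l₁ := (w.drop t).take i) (l₂ := (w.take t).drop j)
      rwa [hlen] at this
    rw [g1, g2, List.take_append_drop, List.take_append_drop, List.take_append_drop]

/-- gluing a word below the line and a word above the line -/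
theorem lq_mul {k l : ℤ} (hk : 1 ≤ k) (m1 m2 : ℕ) :
    lq k l m1 * lq k l m2 ≤ jc k l (m1 + m2 + 1) := by
  classical
  unfold lq jc
  rw [← Finset.card_product]
  apply card_le_of_decode (fun V => (V.take m1, ng (sg (V.drop (m1 + 1)))))
  rintro ⟨u, v⟩ h
  rw [Finset.mem_product, mem_fs, mem_fs] at h
  obtain ⟨⟨⟨⟨hu, hux, huy⟩, hulo⟩, hul⟩, ⟨⟨hv, hvx, hvy⟩, hvlo⟩, hvl⟩ := h
  simp only at hu hux huy hulo hul hv hvx hvy hvlo hvl
  have p1 : ∀ i ≤ m1, path (u ++ (St.N :: ng (sg v))) i = path u i :=
    fun i hi => path_append_left (by omega)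
  have p2 : ∀ r, path (u ++ (St.N :: ng (sg v))) (m1 + (r + 1)) =
        (k - (path v r).1, l + 1 - (path v r).2) := by
    intro r
    have h1 := path_append_right u (St.N :: ng (sg v)) (r + 1)
    rw [hul] at h1
    rw [h1, path_cons_succ, path_rot, hux, huy]
    simp only [St.x_N, St.y_N, Prod.mk.injEq]
    constructor <;> ring
  refine ⟨u ++ (St.N :: ng (sg v)), ?_, ?_⟩
  · rw [mem_fs]
    refine ⟨⟨?_, ?_, ?_⟩, ?_⟩
    · rw [saw_iff']
      intro i j hij hj
      have hlen : (u ++ (St.N :: ng (sg v))).length = m1 + (m2 + 1) := by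
        simp only [List.length_append, List.length_cons, length_ng, length_sg]
        omega
      rw [hlen] at hj
      rcases Nat.lt_or_ge m1 j with h2 | h2
      · obtain ⟨r, rfl⟩ : ∃ r, j = m1 + (r + 1) := ⟨j - m1 - 1, by omega⟩
        rw [p2 r]
        rcases Nat.lt_or_ge m1 i with h3 | h3
        · obtain ⟨r', rfl⟩ : ∃ r', i = m1 + (r' + 1) := ⟨i - m1 - 1, by omega⟩
          rw [p2 r']
          intro he
          obtain ⟨e1, e2⟩ := Prod.mk.inj he
          exact saw_iff'.1 hv r' r (by omega) (by omega) (Prod.ext (by omega) (by omega))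
        · rw [p1 i h3]
          intro he
          have e1 := hulo i
          rw [he] at e1
          have e2 := hvlo r
          unfold ps at e1 e2
          simp only at e1
          nlinarith
      · rw [p1 i (by omega), p1 j h2]
        exact saw_iff'.1 hu i j hij (by omega)
    · rw [dx_append, dy_append, dx_cons, dy_cons, dx_ng, dy_ng, dx_sg, dy_sg, hux, huy, hvx, hvy]
      simp only [St.x_N, St.y_N]
      rw [show k + (0 + -k) = 0 by ring, show l + (1 + -l) = 1 by ring]
      norm_num
    · have e1 := p1 m1 le_rfl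
      have e2 := path_zero (u ++ (St.N :: ng (sg v)))
      have e3 : path u m1 = (k, l) := by
        rw [← hul, path_len, hux, huy]
      refine ⟨⟨m1, 0, ?_⟩, m1, 0, ?_⟩
      · rw [e1, e2, e3]; simp
      · rw [e1, e2, e3]; simp
    · simp only [List.length_append, List.length_cons, length_ng, length_sg]
      omega
  · have g1 : (u ++ (St.N :: ng (sg v))).take m1 = u := by
      have := List.take_left (l₁ := u) (l₂ := St.N :: ng (sg v))
      rwa [hul] at this
    have g2 : (u ++ (St.N :: ng (sg v))).drop (m1 + 1) = ng (sg v) := by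
      have := List.drop_left (l₁ := u) (l₂ := St.N :: ng (sg v))
      rw [hul] at this
      rw [← List.drop_drop, this, List.drop_succ_cons, List.drop_zero]
    rw [g1, g2]
    have e : ng (sg (ng (sg v))) = v := by
      unfold ng sg
      rw [List.map_map, List.map_map, List.map_map]
      conv_rhs => rw [← List.map_id v]
      congr 1
      funext s
      cases s <;> rfl
    rw [e]

end Pool.Agent.K6.H5.JW
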