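import Pool.Agent.K6.H5.JW.Lin

/-!
The lower bound: polygons with given extents from pairs of self-avoiding words.
-/

set_option autoImplicit false

namespace Pool.Agent.K6.H5.JW

open Pool.Agent.TH795.EP Pool.Agent.TH795.EP2 Pool.Agent.TH795.SE2 Pool.Agent.TH262.SawL H981 Finset
open Pool.Agent.Y981.L2

theorem one_le_sum_card {n m : ℕ} (hn : 2 ≤ n) (hm : m ≤ n) :
    (((range (m + 1)).sigma (fun t => range (m - t + 1) ×ˢ range (t + 1))).card : ℝ) ≤ q n 18 := by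
  have h1 : ((range (m + 1)).sigma (fun t => range (m - t + 1) ×ˢ range (t + 1))).card ≤
      (m + 1) * ((m + 1) * (m + 1)) := by
    rw [Finset.card_sigma]
    calc ∑ t ∈ range (m + 1), (range (m - t + 1) ×ˢ range (t + 1)).card
        ≤ ∑ t ∈ range (m + 1), (m + 1) * (m + 1) := by
          apply Finset.sum_le_sum
          intro t ht
          rw [Finset.mem_range] at ht
          rw [Finset.card_product, Finset.card_range, Finset.card_range]
          exact Nat.mul_le_mul (by omega) (by omega)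
      _ = _ := by rw [Finset.sum_const, Finset.card_range, smul_eq_mul]
  have h2 : (m + 1) * ((m + 1) * (m + 1)) ≤ n ^ 6 := by
    have h3 : m + 1 ≤ n ^ 2 := by nlinarith
    calc (m + 1) * ((m + 1) * (m + 1)) ≤ n ^ 2 * (n ^ 2 * n ^ 2) := by gcongr
      _ = n ^ 6 := by ring
  have h3 := pow_le_q hn 6
  norm_num at h3
  refine le_trans ?_ h3
  exact_mod_cast h1.trans h2

theorem cyc_max {n : ℕ} (hn : 2 ≤ n) {K : ℝ} (hup : ∀ j ≤ n, (c j : ℝ) ≤ mu ^ j * q n K)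
    {m : ℕ} (hm : m ≤ n) (k l : ℤ) : ∃ len ≤ m,
      (a m k l : ℝ) ≤ q n (2 * K + 18) * (lq k l len * mu ^ (m - len)) := by
  classical
  have hmu := mu_pos
  obtain ⟨S, hS⟩ : ∃ S, S = (range (m + 1)).sigma (fun t => range (m - t + 1) ×ˢ range (t + 1)) :=
    ⟨_, rfl⟩
  have hne : S.Nonempty := by
    refine ⟨⟨0, (0, 0)⟩, ?_⟩
    rw [hS]
    simp
  obtain ⟨p, hp, hmax⟩ := Finset.exists_max_image S
    (fun p => lq k l (p.2.1 + (p.1 - p.2.2)) * (c (m - p.1 - p.2.1) * c p.2.2)) hne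
  have h1 := cyc_q k l m
  rw [← hS] at h1
  have h2 := h1.trans (Finset.sum_le_card_nsmul S _ _ hmax)
  rw [smul_eq_mul] at h2
  rw [hS, Finset.mem_sigma, Finset.mem_product, Finset.mem_range, Finset.mem_range,
    Finset.mem_range] at hp
  obtain ⟨hp1, hp2, hp3⟩ := hp
  refine ⟨p.2.1 + (p.1 - p.2.2), by omega, ?_⟩
  have h3 : (a m k l : ℝ) ≤ S.card *
      ((lq k l (p.2.1 + (p.1 - p.2.2)) : ℝ) * (c (m - p.1 - p.2.1) * c p.2.2)) := by
    exact_mod_cast h2
  have h4 := one_le_sum_card hn hm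
  rw [← hS] at h4
  have e1 := hup (m - p.1 - p.2.1) (by omega)
  have e2 := hup p.2.2 (by omega)
  have hq := q_pos n K
  have hlq : (0 : ℝ) ≤ (lq k l (p.2.1 + (p.1 - p.2.2)) : ℝ) := Nat.cast_nonneg _
  have e3 : mu ^ (m - p.1 - p.2.1) * mu ^ p.2.2 = mu ^ (m - (p.2.1 + (p.1 - p.2.2))) := by
    rw [← pow_add]
    congr 1
    omega
  calc (a m k l : ℝ) ≤ _ := h3
    _ ≤ q n 18 * ((lq k l (p.2.1 + (p.1 - p.2.2)) : ℝ) *
        ((mu ^ (m - p.1 - p.2.1) * q n K) * (mu ^ p.2.2 * q n K))) := by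
        have := q_pos n 18
        gcongr
    _ = (q n 18 * (q n K * q n K)) * ((lq k l (p.2.1 + (p.1 - p.2.2)) : ℝ) *
        (mu ^ (m - p.1 - p.2.1) * mu ^ p.2.2)) := by ring
    _ = _ := by
        rw [e3, q_mul, q_mul]
        congr 2
        ring

theorem parity_lq {k l : ℤ} {m : ℕ} (h : 0 < lq k l m) : (k + l - m) % 2 = 0 := by
  unfold lq at h
  obtain ⟨w, hw⟩ := card_pos.1 h
  rw [mem_fs] at hw
  obtain ⟨⟨⟨h1, h2, h3⟩, h4⟩, h5⟩ := hw
  have := parity w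
  rw [h2, h3, h5] at this
  exact this

/-- **Lower bound.** -/
theorem low : ∃ K : ℝ, 0 ≤ K ∧ ∀ n : ℕ, 2 ≤ n → ∀ k l : ℤ, 1 ≤ k → ∀ m1 m2 : ℕ,
    m1 + m2 + 1 ≤ n → (a m1 k l : ℝ) * a m2 k l ≤ q n K * jc k l (m1 + m2 + 1) := by
  obtain ⟨K, hK0, hup, hlow⟩ := exists_K
  refine ⟨5 * K + 57, by positivity, ?_⟩
  intro n hn k l hk m1 m2 hm
  have hmu := mu_pos
  rcases Nat.eq_zero_or_pos (a m1 k l) with h1 | h1
  · rw [h1]
    have := q_pos n (5 * K + 57)
    simp only [Nat.cast_zero, zero_mul]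
    positivity
  rcases Nat.eq_zero_or_pos (a m2 k l) with h2 | h2
  · rw [h2]
    have := q_pos n (5 * K + 57)
    simp only [Nat.cast_zero, mul_zero]
    positivity
  obtain ⟨w1, hw1, hx1, hy1, hl1⟩ := exists_of_a h1
  obtain ⟨w2, hw2, hx2, hy2, hl2⟩ := exists_of_a h2
  have p1 := parity w1
  have p2 := parity w2
  obtain ⟨n1, hn1, e1⟩ := cyc_max hn (hup n hn) (by omega : m1 ≤ n) k l
  obtain ⟨n2, hn2, e2⟩ := cyc_max hn (hup n hn) (by omega : m2 ≤ n) k l
  have hpos1 : 0 < lq k l n1 := by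
    by_contra hcon
    have : lq k l n1 = 0 := by omega
    rw [this] at e1
    simp only [Nat.cast_zero, zero_mul, mul_zero] at e1
    have : (0 : ℝ) < a m1 k l := by exact_mod_cast h1
    linarith
  have hpos2 : 0 < lq k l n2 := by
    by_contra hcon
    have : lq k l n2 = 0 := by omega
    rw [this] at e2
    simp only [Nat.cast_zero, zero_mul, mul_zero] at e2
    have : (0 : ℝ) < a m2 k l := by exact_mod_cast h2
    linarith
  have q1 := parity_lq hpos1
  have q2 := parity_lq hpos2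
  obtain ⟨j, hj⟩ : ∃ j : ℕ, (m1 - n1) + (m2 - n2) = 2 * j := by
    refine ⟨((m1 - n1) + (m2 - n2)) / 2, ?_⟩
    omega
  have e3 : ((lq k l n1 : ℝ)) * lq k l n2 ≤ jc k l (n1 + n2 + 1) := by
    exact_mod_cast lq_mul hk n1 n2
  have e4 := jc_lengthen hn hK0 (hlow n hn) (by omega : 1 ≤ n1 + n2 + 1)
    (by omega : (n1 + n2 + 1) + 2 * j ≤ n) k l
  rw [show n1 + n2 + 1 + 2 * j = m1 + m2 + 1 by omega] at e4
  have hq := q_pos n (2 * K + 18)
  have ha1 : (0 : ℝ) ≤ a m1 k l := Nat.cast_nonneg _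
  have ha2 : (0 : ℝ) ≤ a m2 k l := Nat.cast_nonneg _
  calc (a m1 k l : ℝ) * a m2 k l
      ≤ (q n (2 * K + 18) * (lq k l n1 * mu ^ (m1 - n1))) *
        (q n (2 * K + 18) * (lq k l n2 * mu ^ (m2 - n2))) := by gcongr
    _ = (q n (2 * K + 18) * q n (2 * K + 18)) * ((lq k l n1 * lq k l n2) *
        (mu ^ (m1 - n1) * mu ^ (m2 - n2))) := by ring
    _ = q n (4 * K + 36) * ((lq k l n1 * lq k l n2) * mu ^ (2 * j)) := by
        rw [q_mul, ← pow_add, hj]
        congr 2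
        ring
    _ ≤ q n (4 * K + 36) * ((jc k l (n1 + n2 + 1)) * mu ^ (2 * j)) := by
        have := q_pos n (4 * K + 36)
        gcongr
    _ ≤ q n (4 * K + 36) * (q n (K + 21) * jc k l (m1 + m2 + 1)) :=
        mul_le_mul_of_nonneg_left e4 (q_pos _ _).le
    _ = (q n (4 * K + 36) * q n (K + 21)) * jc k l (m1 + m2 + 1) := by ring
    _ = _ := by
        rw [q_mul]
        congr 2
        ring

end Pool.Agent.K6.H5.JW
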