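import Pool.Agent.K6.H5.JW.Ext
import Pool.Agent.Y981.L2.Pull

/-!
The upper bound: cutting a polygon at its four extreme points.
-/

set_option autoImplicit false

namespace Pool.Agent.K6.H5.JW

open Pool.Agent.TH795.EP Pool.Agent.TH795.EP2 Pool.Agent.TH795.SE2 Pool.Agent.TH262.SawL H981 Finset
open Pool.Agent.Y981.L2

/-- the word is a concatenation of words with the given lengths and displacements -/
def Typed : List (ℕ × ℤ × ℤ) → List St → Prop
  | [], V => V = []
  | p :: L, V => p.1 ≤ V.length ∧ dx (V.take p.1) = p.2.1 ∧ dy (V.take p.1) = p.2.2 ∧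
      Typed L (V.drop p.1)

/-- total length -/
def sL (L : List (ℕ × ℤ × ℤ)) : ℕ := (L.map fun p => p.1).sum

/-- total horizontal variation -/
def sX (L : List (ℕ × ℤ × ℤ)) : ℤ := (L.map fun p => |p.2.1|).sum

/-- total vertical variation -/
def sY (L : List (ℕ × ℤ × ℤ)) : ℤ := (L.map fun p => |p.2.2|).sum

theorem Typed.length : ∀ {L : List (ℕ × ℤ × ℤ)} {V : List St}, Typed L V → V.length = sL L
  | [], V, h => by
    have h' : V = [] := h
    rw [h']
    rfl
  | p :: L, V, h => by
    obtain ⟨h1, -, -, h4⟩ := h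
    have := Typed.length h4
    rw [List.length_drop] at this
    have e : sL (p :: L) = p.1 + sL L := by simp [sL]
    rw [e]
    omega

theorem typed_card : ∀ (L : List (ℕ × ℤ × ℤ)) (N : ℕ),
    (fs (fun V => Saw V ∧ Typed L V) N).card ≤ (L.map fun p => a p.1 p.2.1 p.2.2).prod
  | [], N => by
    rw [List.map_nil, List.prod_nil, Finset.card_le_one]
    intro u hu v hv
    rw [mem_fs] at hu hv
    have h1 : u = [] := hu.1.2
    have h2 : v = [] := hv.1.2
    rw [h1, h2]
  | p :: L, N => by
    classical
    rw [List.map_cons, List.prod_cons]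
    refine le_trans ?_ (Nat.mul_le_mul_left _ (typed_card L (N - p.1)))
    unfold a
    rw [← Finset.card_product]
    apply card_le_of_decode (fun q => q.1 ++ q.2)
    intro V hV
    rw [mem_fs] at hV
    obtain ⟨⟨hs, h1, h2, h3, h4⟩, hl⟩ := hV
    refine ⟨(V.take p.1, V.drop p.1), ?_, List.take_append_drop _ _⟩
    rw [Finset.mem_product, mem_fs, mem_fs]
    refine ⟨⟨⟨hs.subw (List.take_prefix _ _).isInfix, h2, h3⟩, ?_⟩,
      ⟨hs.subw (List.drop_suffix _ _).isInfix, h4⟩, ?_⟩
    · rw [List.length_take]; omega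
    · rw [List.length_drop]; omega

theorem sX_nonneg (L : List (ℕ × ℤ × ℤ)) : 0 ≤ sX L := by
  unfold sX
  apply List.sum_nonneg
  intro x hx
  rw [List.mem_map] at hx
  obtain ⟨p, -, rfl⟩ := hx
  exact abs_nonneg _

theorem sY_nonneg (L : List (ℕ × ℤ × ℤ)) : 0 ≤ sY L := by
  unfold sY
  apply List.sum_nonneg
  intro x hx
  rw [List.mem_map] at hx
  obtain ⟨p, -, rfl⟩ := hx
  exact abs_nonneg _

theorem a_zero_zero : a 0 0 0 = 1 := by
  have h1 : a 0 0 0 ≤ 1 := by
    unfold a
    rw [Finset.card_le_one]
    intro u hu v hv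
    rw [mem_fs] at hu hv
    rw [List.length_eq_zero_iff.1 hu.2, List.length_eq_zero_iff.1 hv.2]
  have h2 := TH795.EP2.a_zero
  omega

/-- gluing all pieces -/
theorem typed_glue : ∃ K : ℝ, 0 ≤ K ∧ ∀ n : ℕ, 2 ≤ n → ∀ L : List (ℕ × ℤ × ℤ), sL L ≤ n →
    (((L.map fun p => a p.1 p.2.1 p.2.2).prod : ℕ) : ℝ) ≤
      q n (K * L.length) * a (sL L) (sX L) (sY L) := by
  obtain ⟨K, hK0, hglue⟩ := a_glue
  refine ⟨K, hK0, ?_⟩
  intro n hn L
  induction L with
  | nil =>
    intro _
    have e : a (sL []) (sX []) (sY []) = 1 := a_zero_zero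
    rw [e]
    simp [q_zero]
  | cons p L ih =>
    intro hL
    have e1 : sL (p :: L) = p.1 + sL L := by simp [sL]
    have e2 : sX (p :: L) = |p.2.1| + sX L := by simp [sX]
    have e3 : sY (p :: L) = |p.2.2| + sY L := by simp [sY]
    rw [e1] at hL
    rw [e1, e2, e3, List.map_cons, List.prod_cons, List.length_cons]
    have ih' := ih (by omega)
    have hX := sX_nonneg L
    have hY := sY_nonneg L
    have key : (a p.1 |p.2.1| |p.2.2| : ℝ) * a (sL L) (sX L) (sY L) ≤
        q n K * a (p.1 + sL L) (|p.2.1| + sX L) (|p.2.2| + sY L) := by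
      by_cases hz : (|p.2.1| + sX L, |p.2.2| + sY L) = (0, 0)
      · obtain ⟨h1, h2⟩ := Prod.mk.inj hz
        have f1 : |p.2.1| = 0 := by have := abs_nonneg p.2.1; omega
        have f2 : |p.2.2| = 0 := by have := abs_nonneg p.2.2; omega
        have f3 : sX L = 0 := by have := abs_nonneg p.2.1; omega
        have f4 : sY L = 0 := by have := abs_nonneg p.2.2; omega
        rw [f1, f2, f3, f4]
        have hq := one_le_q hn hK0
        rcases Nat.eq_zero_or_pos p.1 with g1 | g1
        · rcases Nat.eq_zero_or_pos (sL L) with g2 | g2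
          · rw [g1, g2]
            simp only [add_zero]
            rw [a_zero_zero]
            simpa using hq
          · rw [Y981.L2.a_origin g2]
            have := q_pos n K
            simp only [Nat.cast_zero, mul_zero]
            positivity
        · rw [Y981.L2.a_origin g1]
          have := q_pos n K
          simp only [Nat.cast_zero, zero_mul]
          positivity
      · exact hglue n hn p.1 (sL L) hL _ _ _ _ hz
    rw [a_abs] at key
    rw [Nat.cast_mul, Nat.cast_add, Nat.cast_one]
    have ha : (0 : ℝ) ≤ a p.1 p.2.1 p.2.2 := Nat.cast_nonneg _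
    calc (a p.1 p.2.1 p.2.2 : ℝ) * ((L.map fun p => a p.1 p.2.1 p.2.2).prod : ℕ)
        ≤ a p.1 p.2.1 p.2.2 * (q n (K * L.length) * a (sL L) (sX L) (sY L)) :=
          mul_le_mul_of_nonneg_left ih' ha
      _ = q n (K * L.length) * (a p.1 p.2.1 p.2.2 * a (sL L) (sX L) (sY L)) := by ring
      _ ≤ q n (K * L.length) * (q n K * a (p.1 + sL L) (|p.2.1| + sX L) (|p.2.2| + sY L)) :=
          mul_le_mul_of_nonneg_left key (q_pos _ _).le
      _ = (q n (K * L.length) * q n K) * a (p.1 + sL L) (|p.2.1| + sX L) (|p.2.2| + sY L) := by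
          ring
      _ = _ := by
          rw [q_mul]
          congr 2
          ring

/-! ### cutting -/

/-- the pieces of a word between given times -/
def cuts (V : List St) : ℕ → List ℕ → List (ℕ × ℤ × ℤ)
  | _, [] => []
  | s, t :: ts => (t - s, (path V t).1 - (path V s).1, (path V t).2 - (path V s).2) :: cuts V t ts

/-- the times increase and end at the end of the word -/
def Okc (V : List St) : ℕ → List ℕ → Prop
  | s, [] => s = V.length
  | s, t :: ts => s ≤ t ∧ t ≤ V.length ∧ Okc V t ts

theorem cuts_typed (V : List St) : ∀ (ts : List ℕ) (s : ℕ), Okc V s ts →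
    Typed (cuts V s ts) (V.drop s)
  | [], s, h => by
    have h' : s = V.length := h
    change V.drop s = []
    rw [h', List.drop_length]
  | t :: ts, s, h => by
    obtain ⟨hst, htV, h3⟩ := h
    have ih := cuts_typed V ts t h3
    have e0 : s + (t - s) = t := by omega
    have e1 := path_drop V s (t - s)
    rw [e0] at e1
    have e2 : path (V.drop s) (t - s) =
      (dx ((V.drop s).take (t - s)), dy ((V.drop s).take (t - s))) := rfl
    refine ⟨?_, ?_, ?_, ?_⟩
    · simp only
      rw [List.length_drop]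
      omega
    · simp only
      rw [e1]
      simp only
      rw [e2]
      simp
    · simp only
      rw [e1]
      simp only
      rw [e2]
      simp
    · simp only
      rw [List.drop_drop, e0]
      exact ih

end Pool.Agent.K6.H5.JW
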